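import Pool.Agent.H48.CN.Weier

/-!
# The two arcs of the egg of `Y^2 = X (X - α) (X + β)`

If `Q` has infinite order then the points `P + k Q` cannot all lie in the arc `X < -δ` of the egg
`X < 0`, and they cannot all lie in the arc `-δ < X < 0`.
-/

namespace Pool.Agent.helper59.Tw

open WeierstrassCurve WeierstrassCurve.Affine H48.CN

/-- bounds for the coordinates on the arc -/
theorem arc_bd {α β δ : ℚ} (hα : 0 < α) (hβ : 0 < β) (hδ : 0 < δ) {x y : ℚ}
    (e : y ^ 2 = x ^ 3 + (β - α) * x ^ 2 + -(α * β) * x + 0) (hx : x < -δ) :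
    -β ≤ x ∧ (y / x) ^ 2 * x = x ^ 2 + (β - α) * x - α * β ∧ (y / x) ^ 2 ≤ β + α * β / δ := by
  have hx0 : x < 0 := by linarith
  have hxne : x ≠ 0 := hx0.ne
  have h1 : -β ≤ x := by
    by_contra h
    push Not at h
    have h2 : 0 < x * (x - α) := mul_pos_of_neg_of_neg hx0 (by linarith)
    have h3 : x * (x - α) * (x + β) < 0 := mul_neg_of_pos_of_neg h2 (by linarith)
    nlinarith [sq_nonneg y]
  have h2 : (y / x) ^ 2 * x = x ^ 2 + (β - α) * x - α * β := by
    rw [div_pow, e]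
    field_simp
    ring
  refine ⟨h1, h2, ?_⟩
  have h3 : (y / x) ^ 2 = x + (β - α) + α * β / (-x) := by
    have : (y / x) ^ 2 = (x ^ 2 + (β - α) * x - α * β) / x := by
      rw [eq_div_iff hxne]; exact h2
    rw [this]
    field_simp
    ring
  rw [h3]
  have h4 : α * β / (-x) ≤ α * β / δ :=
    div_le_div_of_nonneg_left (by positivity) hδ (by linarith)
  linarith

/-- the relation between the slope and the difference of the coordinates `s = y / x` -/
theorem slope_rel {α β l x y x' y' : ℚ} (hx : x ≠ 0) (hx' : x' ≠ 0)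
    (h : (y / x) ^ 2 * x = x ^ 2 + (β - α) * x - α * β)
    (r1 : l * (x' - x) = y' - -y)
    (r2 : l * (y' + -y) = x' ^ 2 + x' * x + x ^ 2 + (β - α) * (x' + x) + -(α * β)) :
    l * (y' / x' - y / x) = x + x' + (β - α) - y / x * (y' / x') := by
  obtain ⟨s, rfl⟩ : ∃ s, y = s * x := ⟨y / x, by field_simp⟩
  obtain ⟨s', rfl⟩ : ∃ s', y' = s' * x' := ⟨y' / x', by field_simp⟩
  rw [mul_div_cancel_right₀ _ hx] at h ⊢
  rw [mul_div_cancel_right₀ _ hx']
  apply mul_right_cancel₀ hx'
  linear_combination r2 - s * r1 - h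

theorem num_bd {α β δ x x' s s' : ℚ} (hα : 0 < α) (hβ : 0 < β) (hx : x < -δ) (hx' : x' < -δ)
    (hδ : 0 < δ)
    (h : s ^ 2 * x = x ^ 2 + (β - α) * x - α * β)
    (h' : s' ^ 2 * x' = x' ^ 2 + (β - α) * x' - α * β) :
    x + x' + (β - α) - s * s' ≤ -δ + (s' - s) ^ 2 / 2 := by
  have hx0 : x ≠ 0 := by linarith
  have hx0' : x' ≠ 0 := by linarith
  have e1 : s ^ 2 = x + (β - α) - α * β / x := by
    have : s ^ 2 = (x ^ 2 + (β - α) * x - α * β) / x := by rw [eq_div_iff hx0]; exact h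
    rw [this]; field_simp
  have e2 : s' ^ 2 = x' + (β - α) - α * β / x' := by
    have : s' ^ 2 = (x' ^ 2 + (β - α) * x' - α * β) / x' := by rw [eq_div_iff hx0']; exact h'
    rw [this]; field_simp
  have e3 : α * β / x < 0 := div_neg_of_pos_of_neg (by positivity) (by linarith)
  have e4 : α * β / x' < 0 := div_neg_of_pos_of_neg (by positivity) (by linarith)
  nlinarith


/-- The relation between two points of the arc and their difference. -/
theorem diff_rel {α β δ : ℚ} (hα : 0 < α) (hβ : 0 < β) (hδ : 0 < δ) {x y x' y' : ℚ}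
    (h : (Wc (β - α) (-(α * β)) 0).Nonsingular x y)
    (h' : (Wc (β - α) (-(α * β)) 0).Nonsingular x' y') (hx : x < -δ) (hx' : x' < -δ)
    (hne : ¬(x' = x ∧ y' = y)) :
    ∃ (l X Y : ℚ) (hXY : (Wc (β - α) (-(α * β)) 0).Nonsingular X Y),
      Point.some x' y' h' + -Point.some x y h = Point.some X Y hXY ∧
      l * (y' / x' - y / x) = x + x' + (β - α) - y / x * (y' / x') ∧
      l * (y' / x' - y / x) ≤ -δ + (y' / x' - y / x) ^ 2 / 2 ∧
      X = l ^ 2 - (β - α) - x' - x ∧ Y = -(y' + l * (X - x')) := by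
  have hne' : ¬(x' = x ∧ y' = -((Wc (β - α) (-(α * β)) 0).negY x y)) := by
    rw [negY_eq, neg_neg]; exact hne
  obtain ⟨l, X, Y, hXY, hs, r1, r2, r3, r4⟩ := add_rel h' ((nonsingular_neg _ _).2 h) hne'
  rw [negY_eq] at r1 r2
  have b := arc_bd hα hβ hδ (eqn_iff.1 h.1) hx
  have b' := arc_bd hα hβ hδ (eqn_iff.1 h'.1) hx'
  have e := slope_rel (by linarith : x ≠ 0) (by linarith : x' ≠ 0) b.2.1 r1 r2
  refine ⟨l, X, Y, hXY, ?_, e, ?_, r3, r4⟩
  · rw [Point.neg_some]; exact hs
  · rw [e]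
    exact num_bd hα hβ hx hx' hδ b.2.1 b'.2.1

theorem one_le_abs_of_sq {l : ℚ} (h : 1 ≤ l ^ 2) : 1 ≤ |l| := by
  rw [← sq_abs] at h
  by_contra hcon
  push Not at hcon
  have := pow_lt_one₀ (abs_nonneg l) hcon (two_ne_zero)
  linarith

theorem step_core {l e L δ c X x' y' Y W : ℚ} (hδ : 0 < δ) (hl1 : 1 ≤ |l|) (hlL : |l| ≤ L)
    (hneg : l * e ≤ -(δ / 2)) (hcL : c * L = δ / 2) (hX : W < X - x') (hy' : |y'| ≤ W)
    (hY : Y = -(y' + l * (X - x'))) : (0 < Y ∧ c ≤ e) ∨ (Y < 0 ∧ e ≤ -c) := by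
  have hL0 : 0 < L := by linarith
  have hW : 0 ≤ W := (abs_nonneg _).trans hy'
  have hD : 0 < X - x' := by linarith
  rw [abs_le] at hy'
  rcases lt_trichotomy l 0 with hl | hl | hl
  · left
    rw [abs_of_neg hl] at hl1 hlL
    have k0 : 1 * (X - x') ≤ -l * (X - x') := mul_le_mul_of_nonneg_right hl1 hD.le
    refine ⟨by rw [hY]; linarith [hy'.2], ?_⟩
    by_contra hcon
    push Not at hcon
    have he : 0 < e := by
      by_contra h
      push Not at h
      have := mul_nonneg_of_nonpos_of_nonpos hl.le h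
      linarith
    have k1 : -l * e ≤ L * e := mul_le_mul_of_nonneg_right hlL he.le
    have k2 : L * e < L * c := mul_lt_mul_of_pos_left hcon hL0
    linarith
  · rw [hl, abs_zero] at hl1; linarith
  · right
    rw [abs_of_pos hl] at hl1 hlL
    have k0 : 1 * (X - x') ≤ l * (X - x') := mul_le_mul_of_nonneg_right hl1 hD.le
    refine ⟨by rw [hY]; linarith [hy'.1], ?_⟩
    by_contra hcon
    push Not at hcon
    have he : e < 0 := by
      by_contra h
      push Not at h
      have := mul_nonneg hl.le h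
      linarith
    have k1 : l * -e ≤ L * -e := mul_le_mul_of_nonneg_right hlL (by linarith)
    have k2 : L * -e < L * c := mul_lt_mul_of_pos_left (by linarith) hL0
    linarith

/-- No orbit stays in the arc `X < -δ`. -/
theorem no_arc_left {α β δ : ℚ} (hα : 0 < α) (hβ : 0 < β) (hδ : 0 < δ)
    (P Q : (Wc (β - α) (-(α * β)) 0).Point) (hQ : ∀ k : ℕ, 0 < k → k • Q ≠ 0)
    (H : ∀ k : ℕ, ∃ (x y : ℚ) (h : (Wc (β - α) (-(α * β)) 0).Nonsingular x y),
      P + k • Q = Point.some x y h ∧ x < -δ) : False := by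
  choose x y h hP hx using H
  set s : ℕ → ℚ := fun k => y k / x k with hs
  set M : ℚ := β + α * β / δ with hM
  have hM0 : 0 < M := by positivity
  have hb : ∀ k, -β ≤ x k ∧ |s k| ≤ M + 1 := by
    intro k
    obtain ⟨h1, -, h3⟩ := arc_bd hα hβ hδ (eqn_iff.1 (h k).1) (hx k)
    refine ⟨h1, ?_⟩
    apply abs_le_of_sq_le_sq _ (by linarith)
    have : (s k) ^ 2 ≤ M := h3
    nlinarith
  -- the constants
  set K : ℚ := 2 * β + |β - α| + (M + 1) ^ 2 with hK
  have hK0 : 0 < K := by positivity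
  set X0 : ℚ := K ^ 2 / δ + |β - α| + 2 * β + 1 + (M + 1) * β with hX0
  have hX01 : 1 ≤ X0 := by
    have : 0 < K ^ 2 / δ := by positivity
    have : 0 ≤ |β - α| := abs_nonneg _
    have : 0 < (M + 1) * β := by positivity
    linarith
  set η : ℚ := δ / (2 * (X0 + |β - α| + 1) + 2 * δ + 2) with hη
  have hden : 0 < 2 * (X0 + |β - α| + 1) + 2 * δ + 2 := by positivity
  have hη0 : 0 < η := by positivity
  have hηδ : η ^ 2 ≤ δ := by
    have h1 : η ≤ δ := by
      rw [hη, div_le_iff₀ hden]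
      have : 0 < X0 + |β - α| + 1 := by positivity
      nlinarith
    have h2 : η ≤ 1 := by
      rw [hη, div_le_iff₀ hden]
      have : 0 < X0 + |β - α| + 1 := by positivity
      linarith
    nlinarith
  have hη2 : (X0 + |β - α| + 1) * η ≤ δ / 2 := by
    have h1 : η * (2 * (X0 + |β - α| + 1) + 2 * δ + 2) = δ := by
      rw [hη]; exact div_mul_cancel₀ _ hden.ne'
    nlinarith
  -- pigeonhole
  obtain ⟨i, j, hij, hfl⟩ : ∃ i j : ℕ, i < j ∧ ⌊s i / η⌋ = ⌊s j / η⌋ := by
    have hmaps : ∀ k : ℕ, ⌊s k / η⌋ ∈ Finset.Icc ⌊-(M + 1) / η⌋ ⌊(M + 1) / η⌋ := by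
      intro k
      rw [Finset.mem_Icc]
      obtain ⟨-, h2⟩ := hb k
      rw [abs_le] at h2
      exact ⟨Int.floor_le_floor (div_le_div_of_nonneg_right h2.1 hη0.le),
        Int.floor_le_floor (div_le_div_of_nonneg_right h2.2 hη0.le)⟩
    obtain ⟨a, b, hab, hh⟩ := Finite.exists_ne_map_eq_of_infinite
      (fun k : ℕ => (⟨⌊s k / η⌋, hmaps k⟩ : Finset.Icc ⌊-(M + 1) / η⌋ ⌊(M + 1) / η⌋))
    have hh' : ⌊s a / η⌋ = ⌊s b / η⌋ := congrArg Subtype.val hh
    rcases lt_or_gt_of_ne hab with h1 | h1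
    · exact ⟨a, b, h1, hh'⟩
    · exact ⟨b, a, h1, hh'.symm⟩
  have hsmall : |s j - s i| ≤ η := by
    have a1 := Int.floor_le (s i / η)
    have a2 := Int.lt_floor_add_one (s i / η)
    have a3 := Int.floor_le (s j / η)
    have a4 := Int.lt_floor_add_one (s j / η)
    rw [hfl] at a1 a2
    have h1 : |s j / η - s i / η| ≤ 1 := by
      rw [abs_le]; constructor <;> linarith
    rw [← sub_div, abs_div, abs_of_pos hη0, div_le_one hη0] at h1
    exact h1
  set d := j - i with hd
  have hd0 : 0 < d := Nat.sub_pos_of_lt hij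
  -- differences of points of the orbit
  have hdQ : ∀ a b : ℕ, b = a + d → Point.some (x b) (y b) (h b) + -Point.some (x a) (y a) (h a) =
      d • Q := by
    intro a b hab
    rw [← hP b, ← hP a, hab, add_nsmul]; abel
  have hneq : ∀ a b : ℕ, b = a + d → ¬(x b = x a ∧ y b = y a) := by
    rintro a b hab ⟨h1, h2⟩
    apply hQ d hd0
    rw [← hdQ a b hab, ← hP a, ← hP b]
    have : P + b • Q = P + a • Q := by
      rw [hP a, hP b, Point.some.injEq]; exact ⟨h1, h2⟩
    rw [this]; abel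
  obtain ⟨l, X, Y, hXY, hdiff, e1, e2, e3, -⟩ :=
    diff_rel hα hβ hδ (h i) (h j) (hx i) (hx j) (hneq i j (by omega))
  have hδQ : d • Q = Point.some X Y hXY := by rw [← hdQ i j (by omega)]; exact hdiff
  have hXX : X0 ≤ X := by
    have h1 : l * (s j - s i) ≤ -(δ / 2) := by
      have h2 : (s j - s i) ^ 2 ≤ η ^ 2 := by
        rw [← sq_abs (s j - s i)]
        exact pow_le_pow_left₀ (abs_nonneg _) hsmall 2
      have h3 : l * (s j - s i) ≤ -δ + (s j - s i) ^ 2 / 2 := e2
      linarith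
    have h2 : δ / 2 ≤ |l| * η := by
      calc δ / 2 ≤ |l * (s j - s i)| := by
            have := neg_abs_le (l * (s j - s i)); linarith
        _ = |l| * |s j - s i| := abs_mul _ _
        _ ≤ |l| * η := mul_le_mul_of_nonneg_left hsmall (abs_nonneg _)
    have h3 : X0 + |β - α| + 1 ≤ |l| := by
      by_contra hcon
      push Not at hcon
      have := mul_lt_mul_of_pos_right hcon hη0
      linarith
    have h4 : |l| ≤ l ^ 2 := by
      rw [← sq_abs l]
      have : 0 ≤ |β - α| := abs_nonneg _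
      nlinarith
    have h5 := le_abs_self (β - α)
    have := hx i; have := hx j
    rw [e3]; linarith
  -- one step
  set L : ℚ := X + |β - α| with hL
  have hL0 : 0 < L := by
    have : 0 ≤ |β - α| := abs_nonneg _
    linarith
  set c : ℚ := δ / (2 * L) with hc
  have hc0 : 0 < c := by positivity
  have hstep : ∀ m : ℕ, (0 < Y ∧ s (m * d) + c ≤ s ((m + 1) * d)) ∨
      (Y < 0 ∧ s ((m + 1) * d) ≤ s (m * d) - c) := by
    intro m
    have hmd : (m + 1) * d = m * d + d := by ring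
    obtain ⟨l', X', Y', hXY', hdiff', f1, f2, f3, f4⟩ :=
      diff_rel hα hβ hδ (h (m * d)) (h ((m + 1) * d)) (hx _) (hx _) (hneq _ _ hmd)
    have hh := hdQ _ _ hmd
    rw [hdiff', hδQ, Point.some.injEq] at hh
    obtain ⟨rfl, rfl⟩ := hh
    set s' := s ((m + 1) * d) with hs'
    set s₀ := s (m * d) with hs₀
    have f1' : l' * (s' - s₀) = x (m * d) + x ((m + 1) * d) + (β - α) - s₀ * s' := f1
    have f2' : l' * (s' - s₀) ≤ -δ + (s' - s₀) ^ 2 / 2 := f2
    obtain ⟨g1, g2⟩ := hb (m * d)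
    obtain ⟨g3, g4⟩ := hb ((m + 1) * d)
    have g5 := hx (m * d)
    have g6 := hx ((m + 1) * d)
    have hl2 : l' ^ 2 = X' + (β - α) + x (m * d) + x ((m + 1) * d) := by rw [f3]; ring
    have hA1 := le_abs_self (β - α)
    have hA2 := neg_abs_le (β - α)
    have hlow : K ^ 2 / δ + 1 ≤ l' ^ 2 := by
      have : 0 < (M + 1) * β := by positivity
      rw [hl2]; linarith
    have hupp : l' ^ 2 ≤ L := by rw [hl2]; linarith
    have hN : |l' * (s' - s₀)| ≤ K := by
      rw [f1']
      have k1 : |s₀ * s'| ≤ (M + 1) ^ 2 := by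
        rw [abs_mul, sq]; exact mul_le_mul g2 g4 (abs_nonneg _) (by positivity)
      rw [abs_le] at k1 ⊢
      constructor <;> linarith [k1.1, k1.2]
    have hKδ : 0 < K ^ 2 / δ := by positivity
    have he2 : (s' - s₀) ^ 2 ≤ δ := by
      have k1 : l' ^ 2 * (s' - s₀) ^ 2 ≤ K ^ 2 := by
        rw [← mul_pow, ← sq_abs (l' * (s' - s₀))]
        exact pow_le_pow_left₀ (abs_nonneg _) hN 2
      by_contra hcon
      push Not at hcon
      have k2 : K ^ 2 / δ * δ = K ^ 2 := div_mul_cancel₀ _ hδ.ne'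
      have k3 : (K ^ 2 / δ + 1) * δ < l' ^ 2 * (s' - s₀) ^ 2 :=
        mul_lt_mul' hlow hcon hδ.le (by linarith)
      linarith
    have hneg : l' * (s' - s₀) ≤ -(δ / 2) := by linarith
    have hl1 : 1 ≤ |l'| := by
      apply one_le_abs_of_sq
      linarith
    have hlL : |l'| ≤ L := by
      have k1 : |l'| * 1 ≤ |l'| * |l'| := mul_le_mul_of_nonneg_left hl1 (abs_nonneg _)
      have k2 : |l'| * |l'| = l' ^ 2 := by rw [← sq, sq_abs]
      linarith
    have hy' : |y ((m + 1) * d)| ≤ (M + 1) * β := by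
      have hxne : x ((m + 1) * d) ≠ 0 := by linarith
      have : y ((m + 1) * d) = s' * x ((m + 1) * d) := by
        rw [hs', hs]; field_simp
      rw [this, abs_mul]
      refine mul_le_mul g4 ?_ (abs_nonneg _) (by linarith)
      rw [abs_le]; constructor <;> linarith
    have hcL : c * L = δ / 2 := by
      rw [hc]; field_simp
    have hXbig : (M + 1) * β < X' - x ((m + 1) * d) := by
      have : 0 ≤ |β - α| := abs_nonneg _
      linarith
    rcases step_core hδ hl1 hlL hneg hcL hXbig hy' f4 with ⟨k1, k2⟩ | ⟨k1, k2⟩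
    · exact Or.inl ⟨k1, by linarith⟩
    · exact Or.inr ⟨k1, by linarith⟩
  have hbs := fun k => abs_le.1 (hb k).2
  obtain ⟨m, hm⟩ := exists_nat_gt (2 * (M + 1) / c)
  rw [div_lt_iff₀ hc0] at hm
  rcases hstep 0 with ⟨hY, -⟩ | ⟨hY, -⟩
  · have hind : ∀ m : ℕ, s 0 + m * c ≤ s (m * d) := by
      intro m
      induction m with
      | zero => simp
      | succ m ih =>
        rcases hstep m with ⟨-, h2⟩ | ⟨h1, -⟩
        · push_cast; linarith
        · linarith
    have h1 := hind m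
    have h2 := (hbs 0).1
    have h3 := (hbs (m * d)).2
    linarith
  · have hind : ∀ m : ℕ, s (m * d) ≤ s 0 - m * c := by
      intro m
      induction m with
      | zero => simp
      | succ m ih =>
        rcases hstep m with ⟨h1, -⟩ | ⟨-, h2⟩
        · linarith
        · push_cast; linarith
    have h1 := hind m
    have h2 := (hbs 0).2
    have h3 := (hbs (m * d)).1
    linarith

/-- No orbit stays in the arc `-δ < X < 0`. -/
theorem no_arc_right {α β δ : ℚ} (hα : 0 < α) (hβ : 0 < β) (hδ : 0 < δ) (hδβ : δ < β)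
    (P Q : (Wc (β - α) (-(α * β)) 0).Point) (hQ : ∀ k : ℕ, 0 < k → k • Q ≠ 0)
    (H : ∀ k : ℕ, ∃ (x y : ℚ) (h : (Wc (β - α) (-(α * β)) 0).Nonsingular x y),
      P + k • Q = Point.some x y h ∧ -δ < x ∧ x < 0) : False := by
  have hT : (Wc (β - α) (-(α * β)) 0).Nonsingular α 0 := by
    apply nonsing_of
    · ring
    · right
      have : 3 * α ^ 2 + 2 * (β - α) * α + -(α * β) = α * (α + β) := by ring
      rw [this]; positivity
  have hδ' : 0 < α * (β - δ) / (α + δ) := div_pos (mul_pos hα (by linarith)) (by linarith)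
  refine no_arc_left hα hβ hδ' (P + Point.some α 0 hT) Q hQ ?_
  intro k
  obtain ⟨x, y, h, hP, h1, h2⟩ := H k
  have hne : ¬(x = α ∧ y = -0) := by rintro ⟨h3, -⟩; linarith
  obtain ⟨l, X, Y, hXY, hs, r1, -, r3, -⟩ := add_rel h hT hne
  refine ⟨X, Y, hXY, ?_, ?_⟩
  · rw [← hs, ← hP]; abel
  · have e := eqn_iff.1 h.1
    have hxα : x - α ≠ 0 := by linarith
    have hX : X * (α - x) = -(α * (x + β)) := by
      have h3 : l ^ 2 * (x - α) = x * (x + β) := by
        apply mul_right_cancel₀ hxα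
        have : l ^ 2 * (x - α) * (x - α) = (l * (x - α)) ^ 2 := by ring
        rw [this, r1]
        linear_combination e
      rw [r3]
      linear_combination -h3
    rw [← neg_div, lt_div_iff₀ (by linarith : (0 : ℚ) < α + δ)]
    have h4 : 0 < α - x := by linarith
    have h5 : X < 0 := by
      by_contra hcon
      push Not at hcon
      have : 0 < α * (x + β) := mul_pos hα (by linarith)
      nlinarith
    nlinarith

end Pool.Agent.helper59.Tw
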